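import Mathlib

/-!
# Arbitrarily many integers whose differences are even and have an odd number of prime factors

By Hindman's theorem for the two parities of `Ω`.
-/

set_option autoImplicit false

namespace Pool.Agent.ShiftAP

open ArithmeticFunction

lemma fs_consec (a : Stream' ℕ+) : ∀ n i : ℕ, ∃ z : ℕ+, Hindman.FS (a.drop i) z ∧
    (z : ℕ) = ∑ t ∈ Finset.range (n + 1), (a.get (i + t) : ℕ) := by
  intro n
  induction n with
  | zero =>
    intro i
    refine ⟨(a.drop i).head, Hindman.FS.head _, ?_⟩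
    simp [Stream'.head, Stream'.get_drop]
  | succ n ih =>
    intro i
    obtain ⟨z, hz, hz2⟩ := ih (i + 1)
    refine ⟨(a.drop i).head + z, Hindman.FS.cons _ _ ?_, ?_⟩
    · have h1 : (a.drop i).tail = a.drop (i + 1) := by
        rw [Stream'.tail_drop']
      rw [h1]
      exact hz
    · rw [Finset.sum_range_succ', PNat.add_coe, hz2, add_comm]
      congr 1
      · refine Finset.sum_congr rfl (fun t _ => ?_)
        congr 2
        omega
      · simp [Stream'.head, Stream'.get_drop]

theorem clique : ∃ A : ℕ → ℕ, StrictMono A ∧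
    ∀ i j, i < j → Even (A j - A i) ∧ Odd (cardFactors (A j - A i)) := by
  obtain ⟨c, hc, a, ha⟩ := Hindman.exists_FS_of_finite_cover (M := ℕ+)
    {{z : ℕ+ | Even (cardFactors (z : ℕ))}, {z : ℕ+ | Odd (cardFactors (z : ℕ))}}
    ((Set.finite_singleton _).insert _) (by
      intro z _
      rcases Nat.even_or_odd (cardFactors (z : ℕ)) with h | h
      · exact ⟨_, Or.inl rfl, h⟩
      · exact ⟨_, Or.inr rfl, h⟩)
  obtain ⟨P, hP⟩ : ∃ P : ℕ → ℕ, ∀ i, P i = ∑ t ∈ Finset.range i, (a.get t : ℕ) :=
    ⟨_, fun _ => rfl⟩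
  have hmono : StrictMono P := by
    refine strictMono_nat_of_lt_succ (fun i => ?_)
    rw [hP, hP, Finset.sum_range_succ]
    have := (a.get i).pos
    omega
  have hdiff : ∀ i j, i < j → ∃ z : ℕ+, z ∈ c ∧ P j - P i = (z : ℕ) := by
    intro i j hij
    obtain ⟨z, hz, hz2⟩ := fs_consec a (j - i - 1) i
    refine ⟨z, ha (Hindman.FS_iter_tail_sub_FS a i hz), ?_⟩
    have h1 : P j = P i + (z : ℕ) := by
      rw [hP, hP, hz2, show j - i - 1 + 1 = j - i by omega]
      conv_lhs => rw [show j = i + (j - i) by omega]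
      rw [Finset.sum_range_add]
    omega
  rcases hc with hc | hc
  · refine ⟨fun i => 2 * P i, fun i j hij => by
      have := hmono hij
      show 2 * P i < 2 * P j
      omega, fun i j hij => ?_⟩
    obtain ⟨z, hz, hz2⟩ := hdiff i j hij
    have h2 : 2 * P j - 2 * P i = 2 * (z : ℕ) := by omega
    show Even (2 * P j - 2 * P i) ∧ Odd (cardFactors (2 * P j - 2 * P i))
    rw [h2]
    refine ⟨even_two_mul _, ?_⟩
    rw [cardFactors_mul (by norm_num) z.ne_zero, cardFactors_apply_prime Nat.prime_two]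
    rw [hc] at hz
    have hz' : Even (cardFactors (z : ℕ)) := hz
    exact Even.one_add hz'
  · refine ⟨fun i => 4 * P i, fun i j hij => by
      have := hmono hij
      show 4 * P i < 4 * P j
      omega, fun i j hij => ?_⟩
    obtain ⟨z, hz, hz2⟩ := hdiff i j hij
    have h2 : 4 * P j - 4 * P i = 2 * (2 * (z : ℕ)) := by omega
    show Even (4 * P j - 4 * P i) ∧ Odd (cardFactors (4 * P j - 4 * P i))
    rw [h2]
    refine ⟨even_two_mul _, ?_⟩
    rw [cardFactors_mul (by norm_num) (mul_ne_zero (by norm_num) z.ne_zero),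
      cardFactors_mul (by norm_num) z.ne_zero, cardFactors_apply_prime Nat.prime_two]
    have hc' : c = {z : ℕ+ | Odd (cardFactors (z : ℕ))} := hc
    rw [hc'] at hz
    have hz' : Odd (cardFactors (z : ℕ)) := hz
    have h3 : 1 + (1 + cardFactors (z : ℕ)) = 2 + cardFactors (z : ℕ) := by ring
    rw [h3]
    exact Even.add_odd even_two hz'

end Pool.Agent.ShiftAP
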