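import Mathlib

/-!
# Disjoint translates in a residue class
-/

set_option autoImplicit false

namespace Pool.Agent.ShiftAP

open Filter

/-- The set `S` has at most the proportion `1 / m` of a residue class. -/
lemma count_le {S : Set ℕ} {A : ℕ → ℕ} (hA : StrictMono A) {m M a w : ℕ} (hM : 0 < M)
    (hwM : M ∣ w)
    (h : ∀ v ∈ S, v ≡ a [MOD M] → ∀ i j, i < j → j < m → v + (A j - A i) * w ∉ S) (N : ℕ) :
    m * ({h : ℕ | 1 ≤ h ∧ h ≤ N ∧ h ≡ a [MOD M] ∧ h ∈ S}.ncard) ≤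
      (N + A m * w + 1) / M + 1 := by
  classical
  have hT : {h : ℕ | 1 ≤ h ∧ h ≤ N ∧ h ≡ a [MOD M] ∧ h ∈ S} =
      (((Finset.range (N + 1)).filter (fun h => 1 ≤ h ∧ h ≡ a [MOD M] ∧ h ∈ S) : Finset ℕ) :
        Set ℕ) := by
    ext x
    simp only [Set.mem_setOf_eq, Finset.coe_filter, Finset.mem_range]
    constructor
    · rintro ⟨h1, h2, h3, h4⟩
      exact ⟨by omega, h1, h3, h4⟩
    · rintro ⟨h1, h2, h3, h4⟩
      exact ⟨h2, by omega, h3, h4⟩
  rw [hT, Set.ncard_coe_finset]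
  obtain ⟨T, hTd⟩ : ∃ T, T = (Finset.range (N + 1)).filter
    (fun h => 1 ≤ h ∧ h ≡ a [MOD M] ∧ h ∈ S) := ⟨_, rfl⟩
  rw [← hTd]
  have h1 : m * T.card = (Finset.range m ×ˢ T).card := by
    rw [Finset.card_product, Finset.card_range]
  rw [h1]
  have h2 : (Finset.range m ×ˢ T).card ≤
      ((Finset.range (N + A m * w + 1)).filter (fun x => x ≡ a [MOD M])).card := by
    refine Finset.card_le_card_of_injOn (fun q => q.2 + A q.1 * w) ?_ ?_
    · rintro ⟨i, x⟩ hq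
      rw [Finset.mem_coe, Finset.mem_product] at hq
      obtain ⟨hi, hx⟩ := hq
      simp only [Finset.mem_range] at hi
      simp only [hTd, Finset.mem_filter, Finset.mem_range] at hx
      rw [Finset.mem_coe, Finset.mem_filter, Finset.mem_range]
      have hle : A i * w ≤ A m * w := Nat.mul_le_mul_right _ (hA.monotone hi.le)
      refine ⟨by show x + A i * w < _; omega, ?_⟩
      show x + A i * w ≡ a [MOD M]
      have h3 : A i * w ≡ 0 [MOD M] := (Nat.modEq_zero_iff_dvd).2 (hwM.mul_left _)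
      simpa using hx.2.2.1.add h3
    · rintro ⟨i, x⟩ hq ⟨j, y⟩ hr hxy
      rw [Finset.mem_coe, Finset.mem_product] at hq hr
      obtain ⟨hi, hx⟩ := hq
      obtain ⟨hj, hy⟩ := hr
      simp only [Finset.mem_range] at hi hj
      simp only [hTd, Finset.mem_filter, Finset.mem_range] at hx hy
      have hxy' : x + A i * w = y + A j * w := hxy
      rcases lt_trichotomy i j with hij | hij | hij
      · exfalso
        have h4 := h y hy.2.2.2 hy.2.2.1 i j hij hj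
        apply h4
        have h5 : A i ≤ A j := (hA hij).le
        have h6 : y + (A j - A i) * w = x := by
          rw [Nat.sub_mul]
          have : A i * w ≤ A j * w := Nat.mul_le_mul_right _ h5
          omega
        rw [h6]
        exact hx.2.2.2
      · subst hij
        have : x = y := by omega
        rw [this]
      · exfalso
        have h4 := h x hx.2.2.2 hx.2.2.1 j i hij hi
        apply h4
        have h5 : A j ≤ A i := (hA hij).le
        have h6 : x + (A i - A j) * w = y := by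
          rw [Nat.sub_mul]
          have : A j * w ≤ A i * w := Nat.mul_le_mul_right _ h5
          omega
        rw [h6]
        exact hy.2.2.2
  refine h2.trans ?_
  have h3 : ((Finset.range (N + A m * w + 1)).filter (fun x => x ≡ a [MOD M])).card =
      Nat.count (fun x => x ≡ a [MOD M]) (N + A m * w + 1) := by
    rw [Nat.count_eq_card_filter_range]
  rw [h3, Nat.count_modEq_card _ hM]
  split_ifs <;> omega

/-- Number of elements of a residue class. -/
lemma count_ge {M a : ℕ} (hM : 0 < M) (N : ℕ) :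
    (N + 1) / M ≤ {h : ℕ | 1 ≤ h ∧ h ≤ N ∧ h ≡ a [MOD M]}.ncard + 1 := by
  classical
  have hT : {h : ℕ | 1 ≤ h ∧ h ≤ N ∧ h ≡ a [MOD M]} =
      (((Finset.range (N + 1)).filter (fun h => 1 ≤ h ∧ h ≡ a [MOD M]) : Finset ℕ) :
        Set ℕ) := by
    ext x
    simp only [Set.mem_setOf_eq, Finset.coe_filter, Finset.mem_range]
    constructor
    · rintro ⟨h1, h2, h3⟩
      exact ⟨by omega, h1, h3⟩
    · rintro ⟨h1, h2, h3⟩
      exact ⟨h2, by omega, h3⟩
  rw [hT, Set.ncard_coe_finset]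
  have h3 : ((Finset.range (N + 1)).filter (fun x => x ≡ a [MOD M])).card =
      Nat.count (fun x => x ≡ a [MOD M]) (N + 1) := by
    rw [Nat.count_eq_card_filter_range]
  have h4 : (N + 1) / M ≤ ((Finset.range (N + 1)).filter (fun x => x ≡ a [MOD M])).card := by
    rw [h3, Nat.count_modEq_card _ hM]
    split_ifs <;> omega
  refine h4.trans ?_
  have h5 : (Finset.range (N + 1)).filter (fun x => x ≡ a [MOD M]) ⊆
      insert 0 ((Finset.range (N + 1)).filter (fun h => 1 ≤ h ∧ h ≡ a [MOD M])) := by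
    intro x hx
    rw [Finset.mem_filter] at hx
    rw [Finset.mem_insert, Finset.mem_filter]
    rcases Nat.eq_zero_or_pos x with h0 | h0
    · exact Or.inl h0
    · exact Or.inr ⟨hx.1, h0, hx.2⟩
  exact (Finset.card_le_card h5).trans (Finset.card_insert_le _ _)

/-- The complement of `S` has at least the proportion `1 - ε` of a residue class. -/
lemma density {S : Set ℕ} {A : ℕ → ℕ} (hA : StrictMono A) {m M a w : ℕ} (hM : 0 < M)
    (hwM : M ∣ w)
    (h : ∀ v ∈ S, v ≡ a [MOD M] → ∀ i j, i < j → j < m → v + (A j - A i) * w ∉ S) {ε : ℝ}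
    (hm : 1 / ε < m) (hε : 0 < ε) :
    ∀ᶠ N : ℕ in atTop, (1 - ε) * ((N : ℝ) / M) ≤
      ({h : ℕ | 1 ≤ h ∧ h ≤ N ∧ h ≡ a [MOD M] ∧ h ∉ S}.ncard : ℝ) := by
  have hm0 : (0 : ℝ) < m := lt_trans (by positivity) hm
  have hM0 : (0 : ℝ) < M := by exact_mod_cast hM
  have hinv : 1 / (m : ℝ) < ε := by
    rw [div_lt_iff₀ hm0]
    rw [div_lt_iff₀ hε] at hm
    linarith [mul_comm ε (m : ℝ)]
  obtain ⟨C, hC⟩ : ∃ C : ℝ, C = ((A m * w + 1 : ℕ) : ℝ) / M + 1 := ⟨_, rfl⟩
  have hlim : ∀ᶠ N : ℕ in atTop, (2 + C / m) / ((ε - 1 / m) / M) ≤ (N : ℝ) :=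
    tendsto_natCast_atTop_atTop.eventually_ge_atTop _
  filter_upwards [hlim] with N hN
  have h1 := count_le hA hM hwM h N
  have h2 := count_ge (a := a) hM N
  have hfin : {h : ℕ | 1 ≤ h ∧ h ≤ N ∧ h ≡ a [MOD M]}.Finite :=
    (Set.finite_Iic N).subset (fun _ hx => hx.2.1)
  have h3 : {h : ℕ | 1 ≤ h ∧ h ≤ N ∧ h ≡ a [MOD M]}.ncard ≤
      {h : ℕ | 1 ≤ h ∧ h ≤ N ∧ h ≡ a [MOD M] ∧ h ∉ S}.ncard +
        {h : ℕ | 1 ≤ h ∧ h ≤ N ∧ h ≡ a [MOD M] ∧ h ∈ S}.ncard := by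
    refine le_trans (Set.ncard_le_ncard ?_ ?_) (Set.ncard_union_le _ _)
    · rintro x ⟨hx1, hx2, hx3⟩
      by_cases hx : x ∈ S
      · exact Or.inr ⟨hx1, hx2, hx3, hx⟩
      · exact Or.inl ⟨hx1, hx2, hx3, hx⟩
    · refine Set.Finite.union (hfin.subset ?_) (hfin.subset ?_)
      · exact fun x hx => ⟨hx.1, hx.2.1, hx.2.2.1⟩
      · exact fun x hx => ⟨hx.1, hx.2.1, hx.2.2.1⟩
  obtain ⟨B, hB⟩ : ∃ B : ℕ, B = {h : ℕ | 1 ≤ h ∧ h ≤ N ∧ h ≡ a [MOD M] ∧ h ∈ S}.ncard := ⟨_, rfl⟩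
  obtain ⟨G, hG⟩ : ∃ G : ℕ, G = {h : ℕ | 1 ≤ h ∧ h ≤ N ∧ h ≡ a [MOD M] ∧ h ∉ S}.ncard := ⟨_, rfl⟩
  rw [← hB] at h1 h3
  rw [← hG] at h3 ⊢
  have h4 : (m : ℝ) * B ≤ (N : ℝ) / M + C := by
    have h5 : ((m * B : ℕ) : ℝ) ≤ (((N + A m * w + 1) / M + 1 : ℕ) : ℝ) := by exact_mod_cast h1
    have h6 : (((N + A m * w + 1) / M : ℕ) : ℝ) ≤ ((N + A m * w + 1 : ℕ) : ℝ) / M :=
      Nat.cast_div_le
    have h7 : ((N + A m * w + 1 : ℕ) : ℝ) / M = (N : ℝ) / M + ((A m * w + 1 : ℕ) : ℝ) / M := by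
      rw [← add_div]
      push_cast
      ring
    rw [hC]
    push_cast at h5 h6 h7 ⊢
    linarith
  have h8 : (B : ℝ) ≤ (N : ℝ) / M * (1 / m) + C / m := by
    have : (B : ℝ) = ((m : ℝ) * B) / m := by field_simp
    rw [this, div_le_iff₀ hm0]
    have h9 : ((N : ℝ) / M * (1 / m) + C / m) * m = (N : ℝ) / M + C := by
      field_simp
    rw [h9]
    exact h4
  have h10 : (N : ℝ) / M - 1 ≤ (((N + 1) / M : ℕ) : ℝ) := by
    have h11 : (N : ℝ) / M < (((N + 1) / M : ℕ) : ℝ) + 1 := by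
      rw [div_lt_iff₀ hM0]
      have h12 : N < ((N + 1) / M + 1) * M := by
        have := Nat.lt_div_mul_add (a := N + 1) hM
        have h13 := Nat.div_add_mod (N + 1) M
        have h14 := Nat.mod_lt (N + 1) hM
        have h15 : ((N + 1) / M + 1) * M = M * ((N + 1) / M) + M := by ring
        omega
      exact_mod_cast h12
    linarith
  have h16 : (((N + 1) / M : ℕ) : ℝ) ≤ (G : ℝ) + B + 1 := by
    have : (N + 1) / M ≤ G + B + 1 := by omega
    exact_mod_cast this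
  have h17 : 2 + C / m ≤ (ε - 1 / m) * ((N : ℝ) / M) := by
    have hpos : 0 < (ε - 1 / m) / M := div_pos (by linarith) hM0
    rw [div_le_iff₀ hpos] at hN
    calc 2 + C / m ≤ (N : ℝ) * ((ε - 1 / m) / M) := hN
      _ = (ε - 1 / m) * ((N : ℝ) / M) := by ring
  have h18 : (1 - ε) * ((N : ℝ) / M) = (N : ℝ) / M - (N : ℝ) / M * (1 / m)
      - (ε - 1 / m) * ((N : ℝ) / M) := by ring
  rw [h18]
  linarith

end Pool.Agent.ShiftAP
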