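import Pool.Agent.Work.MP_0c1432_nt_h31.Forms
import Pool.Agent.Work.MP_0c1432_nt_ap.Cnt
import Pool.Agent.Work.MP_0c1432_nt_ap.Clq

/-!
# Progressions with almost no exceptional shifts
-/

set_option autoImplicit false

namespace Pool.Agent.ShiftAP

open Filter ArithmeticFunction
open Pool.Agent.MajorityShifts

theorem progressions {ε : ℝ} (hε : 0 < ε) : ∃ M₀ : ℕ, 0 < M₀ ∧ ∀ M : ℕ, 0 < M → M₀ ∣ M →
    ∀ s : ℤ, s = 1 ∨ s = -1 →
      (∀ h : ℕ, 1 ≤ h → M ∣ h → Many s h) ∨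
      (∀ a : ℕ, Nat.Coprime a M → ∀ᶠ N : ℕ in atTop, (1 - ε) * ((N : ℝ) / M) ≤
        ({h : ℕ | 1 ≤ h ∧ h ≤ N ∧ h ≡ a [MOD M] ∧ Many s h}.ncard : ℝ)) := by
  obtain ⟨A, hA, hAd⟩ := clique
  obtain ⟨m, hm⟩ := exists_nat_gt (1 / ε)
  refine ⟨(A m).factorial, Nat.factorial_pos _, ?_⟩
  intro M hM hdvd s hs
  by_cases hex : ∃ w ∈ Exc s, M ∣ w
  · right
    obtain ⟨w, hw, hMw⟩ := hex
    intro a ha
    have hlaw : ∀ v ∈ Exc s, v ≡ a [MOD M] → ∀ i j, i < j → j < m →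
        v + (A j - A i) * w ∉ Exc s := by
      intro v hv hva i j hij hjm
      obtain ⟨hev, hodd⟩ := hAd i j hij
      have hlt := hA hij
      have hle : A j ≤ A m := (hA hjm).le
      have hcopM : Nat.Coprime v M := by
        have h1 : v.gcd M = a.gcd M := hva.gcd_eq
        rw [Nat.coprime_iff_gcd_eq_one, h1]
        exact ha
      have hk2 : 2 ≤ A j - A i := by
        rcases hev with ⟨r, hr⟩
        omega
      have hkdvd : A j - A i ∣ M :=
        (Nat.dvd_factorial (by omega) (by omega)).trans hdvd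
      exact exc_law hs hk2 hodd (Nat.Coprime.coprime_dvd_left hkdvd hcopM.symm)
        (hev.mul_right v) hv hw
    have hd := density hA hM hMw hlaw hm hε
    filter_upwards [hd] with N hN
    refine hN.trans ?_
    have hsub : {h : ℕ | 1 ≤ h ∧ h ≤ N ∧ h ≡ a [MOD M] ∧ h ∉ Exc s} ⊆
        {h : ℕ | 1 ≤ h ∧ h ≤ N ∧ h ≡ a [MOD M] ∧ Many s h} := by
      rintro h ⟨h1, h2, h3, h4⟩
      refine ⟨h1, h2, h3, ?_⟩
      by_contra h5
      exact h4 ⟨h1, h5⟩
    exact_mod_cast Set.ncard_le_ncard hsub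
      ((Set.finite_Iic N).subset (fun _ hx => hx.2.1))
  · left
    intro h h1 h2
    by_contra h3
    exact hex ⟨h, ⟨h1, h3⟩, h2⟩

end Pool.Agent.ShiftAP
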